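import Pool.Agent.R630.PL.Retract

set_option autoImplicit false

/-! # Counting orbits of points with nontrivial stabilizer -/

universe u

namespace Pool.Agent.R630.PL

/-- number of homomorphisms with open kernel -/
theorem card_homs_le {G Q : Type u} [Group G] [TopologicalSpace G] [IsTopologicalGroup G]
    [Group Q] [Finite Q] (S : Finset G)
    (hS : (Subgroup.closure (S : Set G)).topologicalClosure = ⊤) :
    Nat.card {r : G →* Q // IsOpen (r.ker : Set G)} ≤ Nat.card Q ^ S.card := by
  classical
  have hinj : Function.Injective (fun (r : {r : G →* Q // IsOpen (r.ker : Set G)}) (s : S) =>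
      r.1 s) := by
    intro r r' h
    apply Subtype.ext
    have ho : IsOpen ((r.1.ker ⊓ r'.1.ker : Subgroup G) : Set G) := by
      rw [Subgroup.coe_inf]
      exact IsOpen.inter r.2 r'.2
    have h1 : (r.1.ker ⊓ r'.1.ker : Subgroup G) ≤ r.1.eqLocus r'.1 := by
      intro g hg
      have e1 : r.1 g = 1 := hg.1
      have e2 : r'.1 g = 1 := hg.2
      show r.1 g = r'.1 g
      rw [e1, e2]
    have h2 : IsOpen ((r.1.eqLocus r'.1 : Subgroup G) : Set G) := Subgroup.isOpen_mono h1 ho
    have h3 : IsClosed ((r.1.eqLocus r'.1 : Subgroup G) : Set G) :=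
      Subgroup.isClosed_of_isOpen _ h2
    have h4 : Subgroup.closure (S : Set G) ≤ r.1.eqLocus r'.1 := by
      rw [Subgroup.closure_le]
      intro s hs
      exact congrFun h ⟨s, hs⟩
    have h5 : (⊤ : Subgroup G) ≤ r.1.eqLocus r'.1 := by
      rw [← hS]
      exact Subgroup.topologicalClosure_minimal _ h4 h3
    ext g
    exact h5 (Subgroup.mem_top g)
  have := Nat.card_le_card_of_injective _ hinj
  rw [Nat.card_fun, Nat.card_eq_fintype_card (α := S), Fintype.card_coe] at this
  exact this

namespace Pile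

/-- Let `t i` be finitely many points in distinct orbits whose stabilizers have nontrivial
continuous homomorphisms to the finite group `Q`. Then `2 ^ #ι ≤ |Q| ^ d`. -/
theorem two_pow_le (P : Pile.{u}) (hP : P.Projective) (S : Finset P.G)
    (hS : (Subgroup.closure (S : Set P.G)).topologicalClosure = ⊤) {Q : Type u} [Group Q]
    [Finite Q] {ι : Type} [Finite ι] (t : ι → P.T)
    (ht : ∀ i j g, P.act (t i) g = t j → i = j) (q : ∀ i, P.stab (t i) →* Q)
    (hq : ∀ i, IsOpen ((q i).ker : Set (P.stab (t i)))) (hq1 : ∀ i, q i ≠ 1) :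
    2 ^ Nat.card ι ≤ Nat.card Q ^ S.card := by
  classical
  have key : ∀ J : ι → Bool, ∃ r : {r : P.G →* Q // IsOpen (r.ker : Set P.G)},
      ∀ i, (J i = true ↔ ∃ h : P.stab (t i), r.1 h ≠ 1) := by
    intro J
    obtain ⟨r, hr, hs⟩ := P.exists_ext hP t ht (fun i => if J i = true then q i else 1) (by
      intro i
      by_cases h : J i = true
      · rw [if_pos h]
        exact hq i
      · rw [if_neg h, MonoidHom.ker_one]
        exact isOpen_univ)
    refine ⟨⟨r, hr⟩, fun i => ?_⟩
    obtain ⟨s, hs⟩ := hs i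
    constructor
    · intro hJ
      by_contra hn
      push Not at hn
      apply hq1 i
      ext h
      have h1 := hn h
      have h2 := hs h
      simp only [hJ, if_true] at h2
      rw [h1] at h2
      show q i h = 1
      have h3 : q i h = s⁻¹ * (s * q i h * s⁻¹) * s := by group
      rw [h3, ← h2]
      group
    · rintro ⟨h, hh⟩
      by_contra hJ
      apply hh
      have h2 := hs h
      simp only [hJ] at h2
      rw [h2]
      simp
  choose r hr using key
  have hinj : Function.Injective r := by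
    intro J J' h
    funext i
    have h1 := hr J i
    have h2 := hr J' i
    rw [h] at h1
    have h3 : J i = true ↔ J' i = true := h1.trans h2.symm
    cases hJ : J i <;> cases hJ' : J' i <;> simp_all
  have hfin : Finite {r : P.G →* Q // IsOpen (r.ker : Set P.G)} := finite_homs S hS
  have h1 := Nat.card_le_card_of_injective r hinj
  rw [Nat.card_fun] at h1
  have h2 : Nat.card Bool = 2 := by simp
  rw [h2] at h1
  exact h1.trans (card_homs_le S hS)

/-- A proper open subgroup of index at most `n` gives a nontrivial homomorphism to a symmetric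
group. -/
theorem exists_perm {K : Type u} [Group K] [TopologicalSpace K] [IsTopologicalGroup K]
    [CompactSpace K] (V : Subgroup K) (hV : IsOpen (V : Set K)) (hV1 : V ≠ ⊤) (n : ℕ)
    (hn : V.index ≤ n) :
    ∃ q : K →* Equiv.Perm (ULift.{u} (Fin n)), IsOpen (q.ker : Set K) ∧ q ≠ 1 := by
  classical
  have hfin : Finite (K ⧸ V) := Subgroup.quotient_finite_of_isOpen V hV
  have hfi : V.FiniteIndex := V.finiteIndex_of_finite_quotient
  have hcard : Nat.card (K ⧸ V) ≤ Nat.card (ULift.{u} (Fin n)) := by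
    rw [Nat.card_eq_fintype_card (α := ULift.{u} (Fin n)), Fintype.card_ulift, Fintype.card_fin]
    exact hn
  have := Fintype.ofFinite (K ⧸ V)
  have hemb : Nonempty ((K ⧸ V) ↪ ULift.{u} (Fin n)) := by
    rw [Function.Embedding.nonempty_iff_card_le]
    rw [Nat.card_eq_fintype_card, Nat.card_eq_fintype_card] at hcard
    exact hcard
  obtain ⟨e⟩ := hemb
  refine ⟨(Equiv.Perm.viaEmbeddingHom e).comp (MulAction.toPermHom K (K ⧸ V)), ?_, ?_⟩
  · have h1 : V.normalCore ≤
        ((Equiv.Perm.viaEmbeddingHom e).comp (MulAction.toPermHom K (K ⧸ V))).ker := by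
      rw [Subgroup.normalCore_eq_ker]
      intro k hk
      have hk' : MulAction.toPermHom K (K ⧸ V) k = 1 := hk
      show (Equiv.Perm.viaEmbeddingHom e) (MulAction.toPermHom K (K ⧸ V) k) = 1
      rw [hk', map_one]
    refine Subgroup.isOpen_mono h1 ?_
    exact Subgroup.isOpen_of_isClosed_of_finiteIndex _
      (V.normalCore_isClosed (Subgroup.isClosed_of_isOpen V hV))
  · intro h
    apply hV1
    rw [eq_top_iff]
    intro k _
    have h2 : (Equiv.Perm.viaEmbeddingHom e) (MulAction.toPermHom K (K ⧸ V) k) =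
        (Equiv.Perm.viaEmbeddingHom e) 1 := by
      rw [map_one]
      exact DFunLike.congr_fun h k
    have h3 := Equiv.Perm.viaEmbeddingHom_injective e h2
    have h4 := DFunLike.congr_fun h3 ((1 : K) : K ⧸ V)
    have h5 : ((k * 1 : K) : K ⧸ V) = ((1 : K) : K ⧸ V) := h4
    rw [mul_one, eq_comm, QuotientGroup.eq, inv_one, one_mul] at h5
    exact h5

/-- The set of orbits of points whose stabilizer has a proper open subgroup of index `≤ n`. -/
def smallOrbits (P : Pile.{u}) (n : ℕ) : Set P.Orbits :=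
  {o | ∃ t : P.T, Quotient.mk _ t = o ∧
    ∃ V : Subgroup (P.stab t), IsOpen (V : Set (P.stab t)) ∧ V ≠ ⊤ ∧ V.index ≤ n}

theorem finset_bound (P : Pile.{u}) (hP : P.Projective) (S : Finset P.G)
    (hS : (Subgroup.closure (S : Set P.G)).topologicalClosure = ⊤) (n : ℕ)
    (F : Finset P.Orbits) (hF : (F : Set P.Orbits) ⊆ P.smallOrbits n) :
    2 ^ F.card ≤ (n.factorial) ^ S.card := by
  classical
  have e : Fin F.card ≃ F := F.equivFin.symm
  have h1 : ∀ i : Fin F.card, ∃ t : P.T, Quotient.mk _ t = (e i : P.Orbits) ∧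
    ∃ V : Subgroup (P.stab t), IsOpen (V : Set (P.stab t)) ∧ V ≠ ⊤ ∧ V.index ≤ n :=
    fun i => hF (e i).2
  choose t ht V hV1 hV2 hV3 using h1
  have h2 : ∀ i : Fin F.card, ∃ q : P.stab (t i) →* Equiv.Perm (ULift.{u} (Fin n)),
      IsOpen (q.ker : Set (P.stab (t i))) ∧ q ≠ 1 := fun i =>
    exists_perm (V i) (hV1 i) (hV2 i) n (hV3 i)
  choose q hq1 hq2 using h2
  have h3 := P.two_pow_le hP S hS t (by
    intro i j g hg
    apply e.injective
    apply Subtype.ext
    rw [← ht i, ← ht j]
    exact Quotient.sound ⟨g, hg⟩) q hq1 hq2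
  rw [Nat.card_eq_fintype_card (α := Fin F.card), Fintype.card_fin,
    Nat.card_perm, Nat.card_eq_fintype_card, Fintype.card_ulift, Fintype.card_fin] at h3
  exact h3

theorem smallOrbits_finite (P : Pile.{u}) (hP : P.Projective) (S : Finset P.G)
    (hS : (Subgroup.closure (S : Set P.G)).topologicalClosure = ⊤) (n : ℕ) :
    (P.smallOrbits n).Finite ∧ 2 ^ (P.smallOrbits n).ncard ≤ (n.factorial) ^ S.card := by
  have hfin : (P.smallOrbits n).Finite := by
    by_contra h
    obtain ⟨F, hF1, hF2⟩ := Set.Infinite.exists_subset_card_eq h ((n.factorial) ^ S.card)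
    have := P.finset_bound hP S hS n F hF1
    rw [hF2] at this
    exact absurd this (not_le.2 Nat.lt_two_pow_self)
  refine ⟨hfin, ?_⟩
  have := P.finset_bound hP S hS n hfin.toFinset (by rw [Set.Finite.coe_toFinset])
  rw [Set.ncard_eq_toFinset_card _ hfin]
  exact this

/-- The set of orbits of points with nontrivial stabilizer, `T' / G`. -/
def nontrivialOrbits (P : Pile.{u}) : Set P.Orbits :=
  {o | ∃ t : P.T, Quotient.mk _ t = o ∧ P.stab t ≠ ⊥}

theorem nontrivialOrbits_subset (P : Pile.{u}) :
    P.nontrivialOrbits ⊆ ⋃ n, P.smallOrbits n := by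
  rintro _ ⟨t, rfl, ht⟩
  obtain ⟨g, hg1⟩ := Subgroup.ne_bot_iff_exists_ne_one.1 ht
  obtain ⟨U, hU⟩ := ProfiniteGrp.exist_openNormalSubgroup_sub_open_nhds_of_one
    (G := P.stab t) (U := {g}ᶜ) isOpen_compl_singleton (fun h => hg1 h.symm)
  refine Set.mem_iUnion.2 ⟨(U : Subgroup (P.stab t)).index, t, rfl, U, U.isOpen', ?_, le_rfl⟩
  intro h
  exact hU (show g ∈ (U : Subgroup (P.stab t)) by rw [h]; trivial) rfl

end Pile

end Pool.Agent.R630.PL
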