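import Mathlib

set_option autoImplicit false

/-! # Piles (profinite groups acting on profinite spaces) -/

universe u

namespace Pool.Agent.R630.PL

/-- A pile `(G, T)`: a profinite group `G` acting continuously from the right on a profinite
space `T`. The result of the action of `g` on `t` is `act t g`. -/
structure Pile where
  G : Type u
  T : Type u
  [group : Group G]
  [topG : TopologicalSpace G]
  [topGroup : IsTopologicalGroup G]
  [compactG : CompactSpace G]
  [t2G : T2Space G]
  [tdG : TotallyDisconnectedSpace G]
  [topT : TopologicalSpace T]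
  [compactT : CompactSpace T]
  [t2T : T2Space T]
  [tdT : TotallyDisconnectedSpace T]
  act : T → G → T
  act_one : ∀ t, act t 1 = t
  act_mul : ∀ t g h, act t (g * h) = act (act t g) h
  continuous_act : Continuous fun p : T × G => act p.1 p.2

attribute [instance] Pile.group Pile.topG Pile.topGroup Pile.compactG Pile.t2G Pile.tdG
  Pile.topT Pile.compactT Pile.t2T Pile.tdT

namespace Pile

/-- The stabilizer `G_t` of a point. -/
def stab (P : Pile.{u}) (t : P.T) : Subgroup P.G where
  carrier := {g | P.act t g = t}
  one_mem' := P.act_one t
  mul_mem' {g h} hg hh := by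
    show P.act t (g * h) = t
    rw [P.act_mul, show P.act t g = t from hg, show P.act t h = t from hh]
  inv_mem' {g} hg := by
    show P.act t g⁻¹ = t
    have h1 : P.act t g = t := hg
    calc P.act t g⁻¹ = P.act (P.act t g) g⁻¹ := by rw [h1]
      _ = t := by rw [← P.act_mul, mul_inv_cancel, P.act_one]

/-- Two points are in the same orbit. -/
def orbitSetoid (P : Pile.{u}) : Setoid P.T where
  r t t' := ∃ g, P.act t g = t'
  iseqv :=
    { refl := fun t => ⟨1, P.act_one t⟩
      symm := by
        rintro t t' ⟨g, rfl⟩
        exact ⟨g⁻¹, by rw [← P.act_mul, mul_inv_cancel, P.act_one]⟩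
      trans := by
        rintro t t' t'' ⟨g, rfl⟩ ⟨h, rfl⟩
        exact ⟨g * h, P.act_mul t g h⟩ }

/-- The orbit space `T / G`, with the quotient topology. -/
abbrev Orbits (P : Pile.{u}) : Type u := Quotient P.orbitSetoid

/-- A morphism `(B, Y) → (A, X)` of piles: a continuous homomorphism `B → A` and a continuous
map `Y → X` compatible with the actions. -/
structure Mor (P P' : Pile.{u}) where
  hom : P.G →* P'.G
  map : P.T → P'.T
  continuous_hom : Continuous hom
  continuous_map : Continuous map
  map_act : ∀ t g, map (P.act t g) = P'.act (map t) (hom g)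

/-- The map of orbit spaces induced by a morphism. -/
def Mor.orbits {P P' : Pile.{u}} (f : Mor P P') : P.Orbits → P'.Orbits :=
  Quotient.map' f.map (by
    rintro t t' ⟨g, rfl⟩
    exact ⟨f.hom g, (f.map_act t g).symm⟩)

/-- An epimorphism: both maps are surjective, and every point `x` of the target has a preimage
`y` such that the stabilizer of `y` is mapped onto the stabilizer of `x`. -/
def Mor.IsEpi {P P' : Pile.{u}} (f : Mor P P') : Prop :=
  Function.Surjective f.hom ∧ Function.Surjective f.map ∧
    ∀ x : P'.T, ∃ y : P.T, f.map y = x ∧ (P.stab y).map f.hom = P'.stab x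

/-- A rigid morphism: stabilizers are mapped isomorphically onto stabilizers, and the induced map
of orbit spaces is a homeomorphism. -/
def Mor.IsRigid {P P' : Pile.{u}} (f : Mor P P') : Prop :=
  (∀ y : P.T, Set.BijOn f.hom (P.stab y) (P'.stab (f.map y))) ∧ IsHomeomorph f.orbits

/-- A pile is projective if every finite rigid embedding problem `(φ, α)` for it has a
solution. -/
def Projective (P : Pile.{u}) : Prop :=
  ∀ (A B : Pile.{u}) (φ : Mor P A) (α : Mor B A), Finite B.G → Finite B.T →
    α.IsEpi → α.IsRigid →
    ∃ γ : Mor P B, α.hom.comp γ.hom = φ.hom ∧ α.map ∘ γ.map = φ.map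

end Pile

end Pool.Agent.R630.PL
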