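import Pool.Agent.R630.PL.Defs

set_option autoImplicit false

/-! # Extending homomorphisms from stabilizers in projective piles -/

universe u

namespace Pool.Agent.R630.PL

namespace Pile

/-- A finite pile, with the discrete topologies. -/
def ofFinite (A X : Type u) [Group A] [Finite A] [Finite X] (act : X → A → X)
    (h1 : ∀ t, act t 1 = t) (h2 : ∀ t g h, act t (g * h) = act (act t g) h) : Pile.{u} :=
  letI : TopologicalSpace A := ⊥
  haveI : DiscreteTopology A := ⟨rfl⟩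
  letI : TopologicalSpace X := ⊥
  haveI : DiscreteTopology X := ⟨rfl⟩
  { G := A
    T := X
    act := act
    act_one := h1
    act_mul := h2
    continuous_act := continuous_of_discreteTopology }

theorem act_inv_of_act {P : Pile.{u}} {t t' : P.T} {g : P.G} (h : P.act t g = t') :
    P.act t' g⁻¹ = t := by
  rw [← h, ← P.act_mul, mul_inv_cancel, P.act_one]

/-- The relation of being moved by an element of a closed set is closed. -/
theorem isClosed_rel (P : Pile.{u}) (C : Set P.G) (hC : IsClosed C) :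
    IsClosed {p : P.T × P.T | ∃ g ∈ C, P.act p.1 g = p.2} := by
  have h : {p : P.T × P.T | ∃ g ∈ C, P.act p.1 g = p.2} =
      (fun q : P.T × P.G => (q.1, P.act q.1 q.2)) '' (Set.univ ×ˢ C) := by
    ext ⟨a, b⟩
    constructor
    · rintro ⟨g, hg, h⟩
      exact ⟨(a, g), ⟨trivial, hg⟩, Prod.ext rfl h⟩
    · rintro ⟨⟨a', g⟩, ⟨-, hg⟩, h⟩
      have h1 : a' = a := congrArg Prod.fst h
      have h2 : P.act a' g = b := congrArg Prod.snd h
      subst h1
      exact ⟨g, hg, h2⟩
  rw [h]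
  have hc : IsCompact ((Set.univ : Set P.T) ×ˢ C) := isCompact_univ.prod hC.isCompact
  exact (hc.image (continuous_fst.prodMk P.continuous_act)).isClosed

/-- A clopen neighbourhood of `t i` for every `i` in a finite family, such that only elements of
the prescribed open sets `O i j ∋ {g | t i ^ g = t j}` move a point of the `i`-th neighbourhood
into the `j`-th one. -/
theorem exists_nhds (P : Pile.{u}) {ι : Type} [Finite ι] (t : ι → P.T) (O : ι → ι → Set P.G)
    (hO : ∀ i j, IsOpen (O i j)) (h : ∀ i j g, P.act (t i) g = t j → g ∈ O i j) :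
    ∃ W : ι → Set P.T, (∀ i, IsClopen (W i)) ∧ (∀ i, t i ∈ W i) ∧
      ∀ i j, ∀ s ∈ W i, ∀ g, P.act s g ∈ W j → g ∈ O i j := by
  classical
  have key : ∀ i j, ∃ U V : Set P.T, IsOpen U ∧ IsOpen V ∧ t i ∈ U ∧ t j ∈ V ∧
      ∀ s ∈ U, ∀ g, P.act s g ∈ V → g ∈ O i j := by
    intro i j
    have hc := P.isClosed_rel (O i j)ᶜ (hO i j).isClosed_compl
    have hmem : (t i, t j) ∈ {p : P.T × P.T | ∃ g ∈ (O i j)ᶜ, P.act p.1 g = p.2}ᶜ := by
      rintro ⟨g, hg, hgt⟩
      exact hg (h i j g hgt)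
    obtain ⟨U, V, hU, hV, h1, h2, hUV⟩ := isOpen_prod_iff.1 hc.isOpen_compl _ _ hmem
    refine ⟨U, V, hU, hV, h1, h2, fun s hs g hg => ?_⟩
    by_contra hn
    exact hUV (show (s, P.act s g) ∈ U ×ˢ V from ⟨hs, hg⟩) ⟨g, hn, rfl⟩
  choose U V hU hV hi hj hUV using key
  have key2 : ∀ i, ∃ W : Set P.T, IsClopen W ∧ t i ∈ W ∧
      W ⊆ (⋂ j, U i j) ∩ (⋂ j, V j i) := by
    intro i
    have ho : IsOpen ((⋂ j, U i j) ∩ (⋂ j, V j i)) :=
      (isOpen_iInter_of_finite fun j => hU i j).inter (isOpen_iInter_of_finite fun j => hV j i)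
    have hm : t i ∈ (⋂ j, U i j) ∩ (⋂ j, V j i) :=
      ⟨Set.mem_iInter.2 fun j => hi i j, Set.mem_iInter.2 fun j => hj j i⟩
    obtain ⟨W, hW, h1, h2⟩ := compact_exists_isClopen_in_isOpen ho hm
    exact ⟨W, hW, h1, h2⟩
  choose W hW h1 h2 using key2
  refine ⟨W, hW, h1, fun i j s hs g hg => ?_⟩
  exact hUV i j s (Set.mem_iInter.1 (h2 i hs).1 j) g (Set.mem_iInter.1 (h2 j hg).2 i)

end Pile

end Pool.Agent.R630.PL
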