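import Pool.Agent.R630.PL.Ext

set_option autoImplicit false

/-! # A finite rigid embedding problem -/

universe u

namespace Pool.Agent.R630.PL

namespace Pile

instance (A X : Type u) [Group A] [Finite A] [Finite X] (act : X → A → X)
    (h1 : ∀ t, act t 1 = t) (h2 : ∀ t g h, act t (g * h) = act (act t g) h) :
    DiscreteTopology (ofFinite A X act h1 h2).T := ⟨rfl⟩

instance (A X : Type u) [Group A] [Finite A] [Finite X] (act : X → A → X)
    (h1 : ∀ t, act t 1 = t) (h2 : ∀ t g h, act t (g * h) = act (act t g) h) :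
    DiscreteTopology (ofFinite A X act h1 h2).G := ⟨rfl⟩

section

variable {A Q : Type u} [Group A] [Group Q] [Finite A] [Finite Q] {ι : Type} [Finite ι]
  (Ai : ι → Subgroup A) (Bi : ι → Subgroup (A × Q))

/-- the underlying space of the first finite pile -/
abbrev XX : Type u := (Σ i, A ⧸ Ai i) ⊕ PUnit.{u + 1}

/-- the underlying space of the second finite pile -/
abbrev YY : Type u := (Σ i, (A × Q) ⧸ Bi i) ⊕ Q

/-- the action on `XX` -/
def actX : XX Ai → A → XX Ai
  | Sum.inl ⟨i, c⟩, a => Sum.inl ⟨i, a⁻¹ • c⟩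
  | Sum.inr u, _ => Sum.inr u

/-- the action on `YY` -/
def actY : YY Bi → A × Q → YY Bi
  | Sum.inl ⟨i, c⟩, b => Sum.inl ⟨i, b⁻¹ • c⟩
  | Sum.inr s, b => Sum.inr (s * b.2)

/-- the pile `(A, X)` -/
def pX : Pile.{u} := ofFinite A (XX Ai) (actX Ai)
  (by
    rintro (⟨i, c⟩ | u)
    · simp only [actX, inv_one, one_smul]
    · rfl)
  (by
    rintro (⟨i, c⟩ | u) g h
    · simp only [actX, mul_inv_rev, mul_smul]
    · rfl)

/-- the pile `(B, Y)` -/
def pY : Pile.{u} := ofFinite (A × Q) (YY Bi) (actY Bi)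
  (by
    rintro (⟨i, c⟩ | u)
    · simp only [actY, inv_one, one_smul]
    · simp only [actY, Prod.snd_one, mul_one])
  (by
    rintro (⟨i, c⟩ | u) g h
    · simp only [actY, mul_inv_rev, mul_smul]
    · simp only [actY, Prod.snd_mul, mul_assoc])

instance : DiscreteTopology (pX Ai).T := ⟨rfl⟩

instance : DiscreteTopology (pX Ai).G := ⟨rfl⟩

instance : DiscreteTopology (pY Bi).T := ⟨rfl⟩

instance : DiscreteTopology (pY Bi).G := ⟨rfl⟩

theorem disc_orbits (P : Pile.{u}) [DiscreteTopology P.T] : DiscreteTopology P.Orbits := by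
  rw [discreteTopology_iff_forall_isOpen]
  intro s
  exact isOpen_discrete (α := P.T) _

variable (h1 : ∀ i, ∀ b ∈ Bi i, b.1 ∈ Ai i)

/-- the map of coset spaces -/
def cosetMap (i : ι) (h : ∀ b ∈ Bi i, b.1 ∈ Ai i) : (A × Q) ⧸ Bi i → A ⧸ Ai i :=
  Quotient.map' Prod.fst (by
    intro b c hbc
    rw [QuotientGroup.leftRel_apply] at hbc ⊢
    exact h _ hbc)

/-- the map of spaces -/
def mapYX : YY Bi → XX Ai
  | Sum.inl ⟨i, c⟩ => Sum.inl ⟨i, cosetMap Ai Bi i (h1 i) c⟩
  | Sum.inr _ => Sum.inr PUnit.unit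

/-- the morphism `(B, Y) → (A, X)` -/
def aYX : Mor (pY Bi) (pX Ai) where
  hom := MonoidHom.fst A Q
  map := mapYX Ai Bi h1
  continuous_hom := continuous_of_discreteTopology
  continuous_map := continuous_of_discreteTopology
  map_act := by
    rintro (⟨i, c⟩ | s) b
    · induction c using QuotientGroup.induction_on with
      | H c => rfl
    · rfl

include h1 in
theorem bijOn (h2 : ∀ i, ∀ a ∈ Ai i, ∃ c : Q, (a, c) ∈ Bi i)
    (h3 : ∀ i a c c', (a, c) ∈ Bi i → (a, c') ∈ Bi i → c = c') (y : YY Bi) :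
    Set.BijOn (aYX Ai Bi h1).hom ((pY Bi).stab y)
      ((pX Ai).stab ((aYX Ai Bi h1).map y)) := by
  rcases y with ⟨i, c⟩ | s
  · induction c using QuotientGroup.induction_on with
    | H b =>
      have hY : ∀ k : A × Q, k ∈ (pY Bi).stab (Sum.inl ⟨i, (b : (A × Q) ⧸ Bi i)⟩) ↔
          b⁻¹ * k * b ∈ Bi i := by
        intro k
        have e1 : k ∈ (pY Bi).stab (Sum.inl ⟨i, (b : (A × Q) ⧸ Bi i)⟩) ↔
            (Sum.inl ⟨i, k⁻¹ • (b : (A × Q) ⧸ Bi i)⟩ : YY Bi) =
              Sum.inl ⟨i, (b : (A × Q) ⧸ Bi i)⟩ := Iff.rfl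
        rw [e1]
        simp only [Sum.inl.injEq, Sigma.mk.injEq, heq_eq_eq, true_and]
        rw [MulAction.Quotient.smul_coe, QuotientGroup.eq, smul_eq_mul, mul_inv_rev, inv_inv]
      have hX : ∀ k : A,
          k ∈ (pX Ai).stab ((aYX Ai Bi h1).map (Sum.inl ⟨i, (b : (A × Q) ⧸ Bi i)⟩)) ↔
          b.1⁻¹ * k * b.1 ∈ Ai i := by
        intro k
        have e1 : k ∈ (pX Ai).stab ((aYX Ai Bi h1).map (Sum.inl ⟨i, (b : (A × Q) ⧸ Bi i)⟩)) ↔
            (Sum.inl ⟨i, k⁻¹ • (b.1 : A ⧸ Ai i)⟩ : XX Ai) =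
              Sum.inl ⟨i, (b.1 : A ⧸ Ai i)⟩ := Iff.rfl
        rw [e1]
        simp only [Sum.inl.injEq, Sigma.mk.injEq, heq_eq_eq, true_and]
        rw [MulAction.Quotient.smul_coe, QuotientGroup.eq, smul_eq_mul, mul_inv_rev, inv_inv]
      refine ⟨?_, ?_, ?_⟩
      · intro k hk
        have hk' := (hY k).1 hk
        exact (hX k.1).2 (h1 i _ hk')
      · intro (k : A × Q) hk (k' : A × Q) hk' hkk
        have e := (hY k).1 hk
        have e' := (hY k').1 hk'
        have hkk' : k.1 = k'.1 := hkk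
        have e2 : (b⁻¹ * k * b).2 = (b⁻¹ * k' * b).2 := by
          apply h3 i (b⁻¹ * k * b).1
          · exact e
          · have : (b⁻¹ * k * b).1 = (b⁻¹ * k' * b).1 := by
              simp only [Prod.fst_mul, Prod.fst_inv, hkk']
            rw [this]
            exact e'
        simp only [Prod.snd_mul, Prod.snd_inv, mul_left_inj, mul_right_inj] at e2
        exact Prod.ext hkk' e2
      · intro (a : A) ha
        have ha' := (hX a).1 ha
        obtain ⟨c, hc⟩ := h2 i _ ha'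
        refine ⟨(a, b.2 * c * b.2⁻¹), (hY _).2 ?_, rfl⟩
        have : b⁻¹ * (a, b.2 * c * b.2⁻¹) * b = (b.1⁻¹ * a * b.1, c) := by
          ext
          · rfl
          · simp only [Prod.snd_mul, Prod.snd_inv]
            group
        rw [this]
        exact hc
  · have hY : ∀ k : A × Q, k ∈ (pY Bi).stab (Sum.inr s) ↔ k.2 = 1 := by
      intro k
      have e1 : k ∈ (pY Bi).stab (Sum.inr s) ↔ (Sum.inr (s * k.2) : YY Bi) = Sum.inr s := Iff.rfl
      rw [e1]
      simp
    refine ⟨fun k _ => rfl, ?_, ?_⟩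
    · intro k hk k' hk' hkk
      exact Prod.ext hkk (((hY k).1 hk).trans ((hY k').1 hk').symm)
    · intro a _
      exact ⟨(a, 1), (hY _).2 rfl, rfl⟩

omit [Finite A] [Finite Q] [Finite ι] in
theorem surjective_map : Function.Surjective (mapYX Ai Bi h1) := by
  rintro (⟨i, c⟩ | s)
  · induction c using QuotientGroup.induction_on with
    | H a => exact ⟨Sum.inl ⟨i, ((a, 1) : A × Q)⟩, rfl⟩
  · exact ⟨Sum.inr 1, rfl⟩

theorem isEpi (h2 : ∀ i, ∀ a ∈ Ai i, ∃ c : Q, (a, c) ∈ Bi i)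
    (h3 : ∀ i a c c', (a, c) ∈ Bi i → (a, c') ∈ Bi i → c = c') : (aYX Ai Bi h1).IsEpi := by
  refine ⟨fun a => ⟨(a, 1), rfl⟩, surjective_map Ai Bi h1, fun x => ?_⟩
  obtain ⟨y, hy⟩ := surjective_map Ai Bi h1 x
  refine ⟨y, hy, ?_⟩
  have h := (bijOn Ai Bi h1 h2 h3 y).image_eq
  apply SetLike.coe_injective
  rw [Subgroup.coe_map]
  have hy' : (aYX Ai Bi h1).map y = x := hy
  rw [hy'] at h
  exact h

theorem isRigid (h2 : ∀ i, ∀ a ∈ Ai i, ∃ c : Q, (a, c) ∈ Bi i)
    (h3 : ∀ i a c c', (a, c) ∈ Bi i → (a, c') ∈ Bi i → c = c') : (aYX Ai Bi h1).IsRigid := by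
  refine ⟨bijOn Ai Bi h1 h2 h3, ?_⟩
  have d1 : DiscreteTopology (pY Bi).Orbits := disc_orbits _
  have d2 : DiscreteTopology (pX Ai).Orbits := disc_orbits _
  suffices hb : Function.Bijective (aYX Ai Bi h1).orbits from
    (Equiv.ofBijective _ hb).isHomeomorph_of_discrete
  constructor
  · intro y y'
    induction y using Quotient.inductionOn with
    | h y =>
    induction y' using Quotient.inductionOn with
    | h y' =>
    intro h
    have h' : ∃ a : A, (pX Ai).act (mapYX Ai Bi h1 y) a = mapYX Ai Bi h1 y' :=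
      Quotient.exact h
    obtain ⟨a, ha⟩ := h'
    apply Quotient.sound
    rcases y with ⟨i, c⟩ | s <;> rcases y' with ⟨j, c'⟩ | s'
    · induction c using QuotientGroup.induction_on with
      | H c =>
      induction c' using QuotientGroup.induction_on with
      | H c' =>
      have ha2 : (Sum.inl ⟨i, a⁻¹ • (c.1 : A ⧸ Ai i)⟩ : XX Ai) =
        Sum.inl ⟨j, (c'.1 : A ⧸ Ai j)⟩ := ha
      have hij : i = j := by
        have := congrArg (fun z : XX Ai => match z with
          | Sum.inl ⟨k, _⟩ => some k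
          | Sum.inr _ => none) ha2
        exact Option.some.inj this
      subst hij
      refine ⟨c * c'⁻¹, ?_⟩
      show (Sum.inl ⟨i, (c * c'⁻¹)⁻¹ • (c : (A × Q) ⧸ Bi i)⟩ : YY Bi) =
        Sum.inl ⟨i, (c' : (A × Q) ⧸ Bi i)⟩
      rw [MulAction.Quotient.smul_coe, smul_eq_mul]
      congr 4
      group
    · exact absurd ha (by intro h; cases h)
    · exact absurd ha (by intro h; cases h)
    · refine ⟨(1, s⁻¹ * s'), ?_⟩
      show (Sum.inr (s * (s⁻¹ * s')) : YY Bi) = Sum.inr s'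
      rw [mul_inv_cancel_left]
  · intro x
    induction x using Quotient.inductionOn with
    | h x =>
    obtain ⟨y, hy⟩ := surjective_map Ai Bi h1 x
    refine ⟨Quotient.mk _ y, ?_⟩
    rw [← hy]
    rfl

end

end Pile

end Pool.Agent.R630.PL
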