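import Pool.Agent.R630.PL.Sol

set_option autoImplicit false

/-! # Stabilizers in finitely generated projective piles are retracts -/

universe u

namespace Pool.Agent.R630.PL

/-- A finitely generated topological group has only finitely many homomorphisms with open kernel
to a finite group. -/
theorem finite_homs {G Q : Type u} [Group G] [TopologicalSpace G] [IsTopologicalGroup G]
    [Group Q] [Finite Q] (S : Finset G)
    (hS : (Subgroup.closure (S : Set G)).topologicalClosure = ⊤) :
    {r : G →* Q | IsOpen (r.ker : Set G)}.Finite := by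
  classical
  refine Set.Finite.of_injOn (f := fun (r : G →* Q) (s : S) => r s) (t := Set.univ)
    (fun _ _ => trivial) ?_ Set.finite_univ
  intro r hr r' hr' h
  have ho : IsOpen ((r.ker ⊓ r'.ker : Subgroup G) : Set G) := by
    rw [Subgroup.coe_inf]
    exact IsOpen.inter hr hr'
  have h1 : (r.ker ⊓ r'.ker : Subgroup G) ≤ r.eqLocus r' := by
    intro g hg
    have e1 : r g = 1 := hg.1
    have e2 : r' g = 1 := hg.2
    show r g = r' g
    rw [e1, e2]
  have h2 : IsOpen ((r.eqLocus r' : Subgroup G) : Set G) := Subgroup.isOpen_mono h1 ho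
  have h3 : IsClosed ((r.eqLocus r' : Subgroup G) : Set G) := Subgroup.isClosed_of_isOpen _ h2
  have h4 : Subgroup.closure (S : Set G) ≤ r.eqLocus r' := by
    rw [Subgroup.closure_le]
    intro s hs
    exact congrFun h ⟨s, hs⟩
  have h5 : (⊤ : Subgroup G) ≤ r.eqLocus r' := by
    rw [← hS]
    exact Subgroup.topologicalClosure_minimal _ h4 h3
  ext g
  exact h5 (Subgroup.mem_top g)

namespace Pile

instance (P : Pile.{u}) (t : P.T) : CompactSpace (P.stab t) := by
  have : IsClosed ((P.stab t : Subgroup P.G) : Set P.G) := by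
    have : ((P.stab t : Subgroup P.G) : Set P.G) = (fun g => P.act t g) ⁻¹' {t} := rfl
    rw [this]
    exact isClosed_singleton.preimage
      (P.continuous_act.comp (continuous_const.prodMk continuous_id))
  exact isCompact_iff_compactSpace.1 this.isCompact

/-- Extension to `G` of the projection of a stabilizer to a finite quotient. -/
theorem exists_proj (P : Pile.{u}) (hP : P.Projective) (t : P.T)
    (V : Subgroup (P.stab t)) [V.Normal] (hV : IsOpen (V : Set (P.stab t))) :
    ∃ r : P.G →* (P.stab t) ⧸ V, IsOpen (r.ker : Set P.G) ∧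
      ∀ h : P.stab t, r h = QuotientGroup.mk' V h := by
  have : Finite ((P.stab t) ⧸ V) := Subgroup.quotient_finite_of_isOpen V hV
  obtain ⟨r, hr, hs⟩ := P.exists_ext hP (ι := Unit) (fun _ => t) (fun _ _ _ _ => rfl)
    (fun _ => QuotientGroup.mk' V) (fun _ => by
      rw [QuotientGroup.ker_mk']
      exact hV)
  obtain ⟨s, hs⟩ := hs ()
  refine ⟨(MulAut.conj s⁻¹).toMonoidHom.comp r, ?_, fun h => ?_⟩
  · refine Subgroup.isOpen_mono (H₁ := r.ker) ?_ hr
    intro g hg
    have hg' : r g = 1 := hg
    show (MulAut.conj s⁻¹) (r g) = 1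
    rw [hg', map_one]
  · show (MulAut.conj s⁻¹) (r h) = _
    rw [hs h, MulAut.conj_apply]
    group

theorem exists_retract (P : Pile.{u}) (hP : P.Projective) (S : Finset P.G)
    (hS : (Subgroup.closure (S : Set P.G)).topologicalClosure = ⊤) (t : P.T) :
    ∃ r : P.G →ₜ* P.stab t, ∀ h : P.stab t, r (h : P.G) = h := by
  classical
  let K : Type u := P.stab t
  let C : OpenNormalSubgroup K → Set (P.G → K) := fun V =>
    {f | ∃ r : P.G →* K ⧸ (V : Subgroup K), IsOpen (r.ker : Set P.G) ∧
      (∀ h : P.stab t, r h = ((show K from h) : K ⧸ (V : Subgroup K))) ∧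
        ∀ g, r g = (f g : K ⧸ (V : Subgroup K))}
  have hfinV : ∀ V : OpenNormalSubgroup K, Finite (K ⧸ (V : Subgroup K)) := fun V =>
    Subgroup.quotient_finite_of_isOpen (V : Subgroup K) V.isOpen'
  have hne : ∀ V, (C V).Nonempty := by
    intro V
    obtain ⟨r, hr, hh⟩ := P.exists_proj hP t (V : Subgroup K) V.isOpen'
    refine ⟨fun g => (r g).out, r, hr, fun h => hh h, fun g => ?_⟩
    exact (Quotient.out_eq' (r g)).symm
  have hcl : ∀ V, IsClosed (C V) := by
    intro V
    have hfin := finite_homs (Q := K ⧸ (V : Subgroup K)) S hS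
    have hC : C V = ⋃ r ∈ {r : P.G →* K ⧸ (V : Subgroup K) | IsOpen (r.ker : Set P.G)},
        {f : P.G → K | (∀ h : P.stab t, r h = ((show K from h) : K ⧸ (V : Subgroup K))) ∧
          ∀ g, r g = (f g : K ⧸ (V : Subgroup K))} := by
      ext f
      simp only [Set.mem_iUnion, C, Set.mem_ofPred_eq, exists_prop]
    rw [hC]
    refine hfin.isClosed_biUnion fun r _ => ?_
    by_cases h : ∀ h : P.stab t, r h = ((show K from h) : K ⧸ (V : Subgroup K))
    · have : {f : P.G → K | (∀ h : P.stab t, r h = ((show K from h) : K ⧸ (V : Subgroup K))) ∧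
          ∀ g, r g = (f g : K ⧸ (V : Subgroup K))} =
          ⋂ g, (fun f : P.G → K => f g) ⁻¹' {k : K | r g = (k : K ⧸ (V : Subgroup K))} := by
        ext f
        simp only [Set.mem_ofPred_eq, Set.mem_iInter, Set.mem_preimage]
        exact ⟨fun hf g => hf.2 g, fun hf => ⟨h, hf⟩⟩
      rw [this]
      refine isClosed_iInter fun g => IsClosed.preimage (continuous_apply g) ?_
      have hd : DiscreteTopology (K ⧸ (V : Subgroup K)) :=
        QuotientGroup.discreteTopology V.isOpen'
      have : {k : K | r g = (k : K ⧸ (V : Subgroup K))} =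
          (fun k : K => (k : K ⧸ (V : Subgroup K))) ⁻¹' {r g} := by
        ext k
        exact eq_comm
      rw [this]
      exact (isClosed_discrete _).preimage continuous_quotient_mk'
    · have : {f : P.G → K | (∀ h : P.stab t, r h = ((show K from h) : K ⧸ (V : Subgroup K))) ∧
          ∀ g, r g = (f g : K ⧸ (V : Subgroup K))} = ∅ := by
        ext f
        simp only [Set.mem_ofPred_eq, Set.mem_empty_iff_false, iff_false, not_and]
        exact fun hf => absurd hf h
      rw [this]
      exact isClosed_empty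
  have hmono : ∀ V V' : OpenNormalSubgroup K, (V : Subgroup K) ≤ (V' : Subgroup K) →
      C V ⊆ C V' := by
    rintro V V' hVV f ⟨r, hr, h1, h2⟩
    let m : K ⧸ (V : Subgroup K) →* K ⧸ (V' : Subgroup K) :=
      QuotientGroup.map _ _ (MonoidHom.id K) hVV
    refine ⟨m.comp r, ?_, fun h => ?_, fun g => ?_⟩
    · refine Subgroup.isOpen_mono (H₁ := r.ker) ?_ hr
      intro g hg
      have hg' : r g = 1 := hg
      show m (r g) = 1
      rw [hg', map_one]
    · show m (r h) = _
      rw [h1 h]
      rfl
    · show m (r g) = _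
      rw [h2 g]
      rfl
  have hdir : Directed (· ⊇ ·) C := by
    intro V V'
    refine ⟨⟨V.toOpenSubgroup ⊓ V'.toOpenSubgroup, ?_⟩, ?_, ?_⟩
    · show ((V : Subgroup K) ⊓ (V' : Subgroup K)).Normal
      infer_instance
    · exact hmono _ _ inf_le_left
    · exact hmono _ _ inf_le_right
  have hne2 : Nonempty (OpenNormalSubgroup K) := by
    obtain ⟨U, -⟩ := ProfiniteGrp.exist_openNormalSubgroup_sub_open_nhds_of_one (G := K)
      isOpen_univ (Set.mem_univ _)
    exact ⟨U⟩
  obtain ⟨f, hf⟩ := IsCompact.nonempty_iInter_of_directed_nonempty_isCompact_isClosed C hdir hne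
    (fun V => (hcl V).isCompact) hcl
  rw [Set.mem_iInter] at hf
  have hsep : ∀ x y : K, (∀ V : OpenNormalSubgroup K,
      (x : K ⧸ (V : Subgroup K)) = (y : K ⧸ (V : Subgroup K))) → x = y := by
    intro x y h
    by_contra hxy
    have hne : x⁻¹ * y ≠ 1 := fun h => hxy (inv_mul_eq_one.1 h)
    obtain ⟨U, hU⟩ := ProfiniteGrp.exist_openNormalSubgroup_sub_open_nhds_of_one (G := K)
      (U := {x⁻¹ * y}ᶜ) isOpen_compl_singleton (fun h => hne h.symm)
    exact hU (QuotientGroup.eq.1 (h U)) rfl
  have hmul : ∀ g g', f (g * g') = f g * f g' := by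
    intro g g'
    apply hsep
    intro V
    obtain ⟨r, hr, h1, h2⟩ := hf V
    rw [QuotientGroup.mk_mul, ← h2, ← h2, ← h2, map_mul]
  let F : P.G →* K := MonoidHom.mk' f hmul
  have hFc : Continuous F := by
    refine continuous_of_continuousAt_one F ?_
    intro N hN
    rw [map_one] at hN
    obtain ⟨O, hO1, hO2, hO3⟩ := mem_nhds_iff.1 hN
    obtain ⟨V, hV⟩ := ProfiniteGrp.exist_openNormalSubgroup_sub_open_nhds_of_one (G := K) hO2 hO3
    obtain ⟨r, hr, h1, h2⟩ := hf V
    refine Filter.mem_map.2 (Filter.mem_of_superset (hr.mem_nhds r.ker.one_mem) ?_)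
    intro g hg
    have hg' : r g = 1 := hg
    apply hO1
    apply hV
    rw [h2 g, QuotientGroup.eq_one_iff] at hg'
    exact hg'
  refine ⟨⟨F, hFc⟩, fun h => ?_⟩
  show f h = h
  apply hsep
  intro V
  obtain ⟨r, hr, h1, h2⟩ := hf V
  rw [← h2, h1]

end Pile

end Pool.Agent.R630.PL
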