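import Pool.Agent.R630.PL.Fin

set_option autoImplicit false

/-! # Simultaneous extension of homomorphisms from stabilizers in projective piles -/

universe u

namespace Pool.Agent.R630.PL

namespace Pile

/-- An open normal subgroup meeting every `stab (t i)` in the kernel of `q i`. -/
theorem exists_open (P : Pile.{u}) {Q : Type u} [Group Q] {ι : Type} [Finite ι]
    (t : ι → P.T) (q : ∀ i, P.stab (t i) →* Q)
    (hq : ∀ i, IsOpen ((q i).ker : Set (P.stab (t i)))) :
    ∃ U : OpenNormalSubgroup P.G, ∀ i, ∀ h : P.stab (t i), (h : P.G) ∈ U → q i h = 1 := by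
  have key : ∀ i, ∃ O : Set P.G, IsOpen O ∧ (Subtype.val ⁻¹' O : Set (P.stab (t i))) =
      ((q i).ker : Set (P.stab (t i))) := fun i => isOpen_induced_iff.1 (hq i)
  choose O hO hOe using key
  obtain ⟨U, hU⟩ := ProfiniteGrp.exist_openNormalSubgroup_sub_open_nhds_of_one
    (U := ⋂ i, O i) (isOpen_iInter_of_finite hO) (by
      refine Set.mem_iInter.2 fun i => ?_
      have : (1 : P.stab (t i)) ∈ (Subtype.val ⁻¹' O i : Set (P.stab (t i))) := by
        rw [hOe i]
        exact (q i).ker.one_mem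
      exact this)
  refine ⟨U, fun i h hh => ?_⟩
  have : h ∈ (Subtype.val ⁻¹' O i : Set (P.stab (t i))) := Set.mem_iInter.1 (hU hh) i
  rw [hOe i] at this
  exact this

/-- Let `(G, T)` be a projective pile, `t i` finitely many points in distinct orbits, and
`q i : G_{t i} → Q` continuous homomorphisms to a finite group. There is a continuous
homomorphism `G → Q` whose restriction to every `G_{t i}` is conjugate to `q i`. -/
theorem exists_ext (P : Pile.{u}) (hP : P.Projective) {Q : Type u} [Group Q] [Finite Q]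
    {ι : Type} [Finite ι] (t : ι → P.T) (ht : ∀ i j g, P.act (t i) g = t j → i = j)
    (q : ∀ i, P.stab (t i) →* Q) (hq : ∀ i, IsOpen ((q i).ker : Set (P.stab (t i)))) :
    ∃ r : P.G →* Q, IsOpen (r.ker : Set P.G) ∧
      ∀ i, ∃ s : Q, ∀ h : P.stab (t i), r h = s * q i h * s⁻¹ := by
  classical
  obtain ⟨U, hU⟩ := exists_open P t q hq
  have hUo : IsOpen ((U : Subgroup P.G) : Set P.G) := U.isOpen'
  have hfin : Finite (P.G ⧸ (U : Subgroup P.G)) :=
    Subgroup.quotient_finite_of_isOpen (U : Subgroup P.G) hUo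
  let A : Type u := P.G ⧸ (U : Subgroup P.G)
  let π : P.G →* A := QuotientGroup.mk' (U : Subgroup P.G)
  have hπ : ∀ g, π g = 1 ↔ g ∈ (U : Subgroup P.G) := fun g =>
    QuotientGroup.eq_one_iff g
  have hπo : ∀ s : Set A, IsOpen (π ⁻¹' s) := by
    intro s
    rw [isOpen_iff_mem_nhds]
    intro g hg
    have h1 : (fun x => g * x) '' ((U : Subgroup P.G) : Set P.G) ∈ nhds g := by
      have := (Homeomorph.mulLeft g).isOpenMap _ hUo
      refine this.mem_nhds ⟨1, U.toSubgroup.one_mem, mul_one g⟩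
    refine Filter.mem_of_superset h1 ?_
    rintro _ ⟨u, hu, rfl⟩
    show π (g * u) ∈ s
    rw [map_mul, (hπ u).2 hu, mul_one]
    exact hg
  let Ai : ι → Subgroup A := fun i => (π.comp (P.stab (t i)).subtype).range
  let Bi : ι → Subgroup (A × Q) := fun i =>
    ((π.comp (P.stab (t i)).subtype).prod (q i)).range
  have hqq : ∀ i, ∀ h h' : P.stab (t i), π h = π h' → q i h = q i h' := by
    intro i h h' hh
    have h1 : ((h⁻¹ * h' : P.stab (t i)) : P.G) ∈ U := by
      refine (hπ _).1 ?_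
      rw [Subgroup.coe_mul, Subgroup.coe_inv, map_mul, map_inv, hh, inv_mul_cancel]
    have h2 := hU i _ h1
    rw [map_mul, map_inv, inv_mul_eq_one] at h2
    exact h2
  have h1 : ∀ i, ∀ b ∈ Bi i, b.1 ∈ Ai i := by
    rintro i _ ⟨h, rfl⟩
    exact ⟨h, rfl⟩
  have h2 : ∀ i, ∀ a ∈ Ai i, ∃ c : Q, (a, c) ∈ Bi i := by
    rintro i _ ⟨h, rfl⟩
    exact ⟨q i h, h, rfl⟩
  have h3 : ∀ i a c c', (a, c) ∈ Bi i → (a, c') ∈ Bi i → c = c' := by
    rintro i a c c' ⟨h, hh⟩ ⟨h', hh'⟩
    have e1 : π h = a := congrArg Prod.fst hh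
    have e2 : q i h = c := congrArg Prod.snd hh
    have e3 : π h' = a := congrArg Prod.fst hh'
    have e4 : q i h' = c' := congrArg Prod.snd hh'
    rw [← e2, ← e4]
    exact hqq i h h' (e1.trans e3.symm)
  -- neighbourhoods
  obtain ⟨W, hW, htW, hWW⟩ := P.exists_nhds t
    (fun i j => if i = j then π ⁻¹' (Ai i : Set A) else ∅)
    (by
      intro i j
      by_cases hij : i = j
      · simp only [hij, if_true]
        exact hπo _
      · simp only [hij, if_false]
        exact isOpen_empty)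
    (by
      intro i j g hg
      have hij := ht i j g hg
      subst hij
      simp only [if_true]
      exact ⟨⟨g, hg⟩, rfl⟩)
  have hW2 : ∀ i j, ∀ s ∈ W i, ∀ g, P.act s g ∈ W j → i = j ∧ π g ∈ Ai i := by
    intro i j s hs g hg
    have := hWW i j s hs g hg
    by_cases hij : i = j
    · simp only [hij, if_true] at this
      subst hij
      exact ⟨rfl, this⟩
    · simp only [hij, if_false] at this
      exact absurd this (Set.notMem_empty _)
  -- the morphism to `(A, X)`
  let f : P.T → XX Ai := fun s =>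
    if h : ∃ (i : ι) (g : P.G), P.act s g ∈ W i then
      Sum.inl ⟨h.choose, ((π h.choose_spec.choose : A) : A ⧸ Ai h.choose)⟩
    else Sum.inr PUnit.unit
  have hf1 : ∀ (s : P.T) (i : ι) (g : P.G), P.act s g ∈ W i →
      f s = Sum.inl ⟨i, ((π g : A) : A ⧸ Ai i)⟩ := by
    intro s i g hs
    have h : ∃ (i : ι) (g : P.G), P.act s g ∈ W i := ⟨i, g, hs⟩
    have e : f s = Sum.inl ⟨h.choose, ((π h.choose_spec.choose : A) : A ⧸ Ai h.choose)⟩ := by
      simp only [f]
      rw [dif_pos h]
    rw [e]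
    have h4 := h.choose_spec.choose_spec
    generalize h.choose_spec.choose = g' at h4 ⊢
    generalize h.choose = j at h4 ⊢
    have h5 : P.act (P.act s g) (g⁻¹ * g') ∈ W j := by
      rw [← P.act_mul, mul_inv_cancel_left]
      exact h4
    obtain ⟨hij, h6⟩ := hW2 i j _ hs _ h5
    subst hij
    congr 2
    rw [eq_comm, QuotientGroup.eq, ← map_inv, ← map_mul]
    exact h6
  have hf2 : ∀ s : P.T, (¬ ∃ (i : ι) (g : P.G), P.act s g ∈ W i) →
      f s = Sum.inr PUnit.unit := by
    intro s h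
    simp only [f]
    rw [dif_neg h]
  have hcont : ∀ g : P.G, Continuous fun s : P.T => P.act s g := fun g =>
    P.continuous_act.comp (continuous_id.prodMk continuous_const)
  have hfc : ∀ Z : Set (XX Ai), IsOpen (f ⁻¹' Z) := by
    intro Z
    rw [isOpen_iff_mem_nhds]
    intro s hs
    by_cases h : ∃ (i : ι) (g : P.G), P.act s g ∈ W i
    · obtain ⟨i, g, hg⟩ := h
      have ho : IsOpen ((fun s : P.T => P.act s g) ⁻¹' W i) := (hW i).isOpen.preimage (hcont g)
      refine Filter.mem_of_superset (ho.mem_nhds hg) ?_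
      intro s' hs'
      have e1 := hf1 s' i g hs'
      have e2 := hf1 s i g hg
      show f s' ∈ Z
      rw [e1, ← e2]
      exact hs
    · have ho : IsOpen {s : P.T | ∃ (i : ι) (g : P.G), P.act s g ∈ W i}ᶜ := by
        have hc : IsClosed {s : P.T | ∃ (i : ι) (g : P.G), P.act s g ∈ W i} := by
          have : {s : P.T | ∃ (i : ι) (g : P.G), P.act s g ∈ W i} =
              ⋃ i, (fun p : P.T × P.G => P.act p.1 p.2) '' (W i ×ˢ Set.univ) := by
            ext s
            constructor
            · rintro ⟨i, g, hg⟩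
              refine Set.mem_iUnion.2 ⟨i, (P.act s g, g⁻¹), ⟨hg, trivial⟩, ?_⟩
              show P.act (P.act s g) g⁻¹ = s
              rw [← P.act_mul, mul_inv_cancel, P.act_one]
            · intro hs
              obtain ⟨i, ⟨s', g⟩, ⟨hs', -⟩, rfl⟩ := Set.mem_iUnion.1 hs
              refine ⟨i, g⁻¹, ?_⟩
              show P.act (P.act s' g) g⁻¹ ∈ W i
              rw [← P.act_mul, mul_inv_cancel, P.act_one]
              exact hs'
          rw [this]
          refine isClosed_iUnion_of_finite fun i => ?_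
          exact (((hW i).isClosed.isCompact.prod isCompact_univ).image
            P.continuous_act).isClosed
        exact hc.isOpen_compl
      refine Filter.mem_of_superset (ho.mem_nhds h) ?_
      intro s' hs'
      have e1 := hf2 s' hs'
      have e2 := hf2 s h
      show f s' ∈ Z
      rw [e1, ← e2]
      exact hs
  have hfact : ∀ (s : P.T) (g : P.G), f (P.act s g) = (pX Ai).act (f s) (π g) := by
    intro s g
    by_cases h : ∃ (i : ι) (g : P.G), P.act s g ∈ W i
    · obtain ⟨i, k, hk⟩ := h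
      rw [hf1 s i k hk, hf1 (P.act s g) i (g⁻¹ * k) (by
        rw [← P.act_mul, mul_inv_cancel_left]
        exact hk)]
      show _ = (Sum.inl ⟨i, (π g)⁻¹ • ((π k : A) : A ⧸ Ai i)⟩ : XX Ai)
      rw [MulAction.Quotient.smul_coe, smul_eq_mul, map_mul, map_inv]
    · have h' : ¬ ∃ (i : ι) (k : P.G), P.act (P.act s g) k ∈ W i := by
        rintro ⟨i, k, hk⟩
        exact h ⟨i, g * k, by rw [P.act_mul]; exact hk⟩
      rw [hf2 s h, hf2 _ h']
      rfl
  let φ : Mor P (pX Ai) :=
    { hom := π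
      map := f
      continuous_hom := ⟨fun s _ => hπo s⟩
      continuous_map := ⟨fun s _ => hfc s⟩
      map_act := hfact }
  have fin1 : Finite (pY Bi).G := inferInstanceAs (Finite (A × Q))
  have fin2 : Finite (pY Bi).T := inferInstanceAs (Finite (YY Bi))
  obtain ⟨γ, hγ1, hγ2⟩ := hP (pX Ai) (pY Bi) φ (aYX Ai Bi h1) fin1 fin2
    (isEpi Ai Bi h1 h2 h3) (isRigid Ai Bi h1 h2 h3)
  have hγ1' : ∀ g, (γ.hom g : A × Q).1 = π g := fun g => DFunLike.congr_fun hγ1 g
  refine ⟨(MonoidHom.snd A Q).comp γ.hom, ?_, ?_⟩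
  · have : (((MonoidHom.snd A Q).comp γ.hom).ker : Set P.G) =
        γ.hom ⁻¹' {b : A × Q | b.2 = 1} := rfl
    rw [this]
    exact (isOpen_discrete (α := (pY Bi).G) _).preimage γ.continuous_hom
  · intro i
    -- the image of `t i`
    have e0 : f (t i) = Sum.inl ⟨i, ((1 : A) : A ⧸ Ai i)⟩ := by
      have := hf1 (t i) i 1 (by rw [P.act_one]; exact htW i)
      rw [map_one] at this
      exact this
    have e1 : mapYX Ai Bi h1 (γ.map (t i)) = Sum.inl ⟨i, ((1 : A) : A ⧸ Ai i)⟩ := by
      rw [← e0]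
      exact congrFun hγ2 (t i)
    have e2 : ∃ b : A × Q, γ.map (t i) = (Sum.inl ⟨i, (b : (A × Q) ⧸ Bi i)⟩ : YY Bi) ∧
        b.1 ∈ Ai i := by
      generalize γ.map (t i) = y at e1
      have e1' : mapYX Ai Bi h1 (y : YY Bi) = Sum.inl ⟨i, ((1 : A) : A ⧸ Ai i)⟩ := e1
      change ∃ b : A × Q, (y : YY Bi) = (Sum.inl ⟨i, (b : (A × Q) ⧸ Bi i)⟩ : YY Bi) ∧ b.1 ∈ Ai i
      rcases (y : YY Bi) with ⟨j, c⟩ | s
      · induction c using QuotientGroup.induction_on with
        | H b =>
        have e3 : (Sum.inl ⟨j, ((b.1 : A) : A ⧸ Ai j)⟩ : XX Ai) =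
          Sum.inl ⟨i, ((1 : A) : A ⧸ Ai i)⟩ := e1'
        have hij : j = i := by
          have := congrArg (fun z : XX Ai => match z with
            | Sum.inl ⟨k, _⟩ => some k
            | Sum.inr _ => none) e3
          exact Option.some.inj this
        subst hij
        refine ⟨b, rfl, ?_⟩
        simp only [Sum.inl.injEq, Sigma.mk.injEq, heq_eq_eq, true_and] at e3
        rw [eq_comm, QuotientGroup.eq, inv_one, one_mul] at e3
        exact e3
      · exact absurd e1' (by intro h; cases h)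
    obtain ⟨b, hb, hb1⟩ := e2
    obtain ⟨h0, hh0⟩ := hb1
    have hh0' : π h0 = b.1 := hh0
    refine ⟨b.2 * (q i h0)⁻¹, fun h => ?_⟩
    have e4 : (pY Bi).act (γ.map (t i)) (γ.hom h) = γ.map (t i) := by
      rw [← γ.map_act, show P.act (t i) h = t i from h.2]
    rw [hb] at e4
    obtain ⟨bh, hbh⟩ : ∃ bh : A × Q, bh = γ.hom h := ⟨γ.hom h, rfl⟩
    have hb1 : bh.1 = π h := by
      rw [hbh]
      exact hγ1' h
    rw [← hbh] at e4
    have e5 : (Sum.inl ⟨i, bh⁻¹ • (b : (A × Q) ⧸ Bi i)⟩ : YY Bi) =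
      Sum.inl ⟨i, (b : (A × Q) ⧸ Bi i)⟩ := e4
    simp only [Sum.inl.injEq, Sigma.mk.injEq, heq_eq_eq, true_and] at e5
    rw [MulAction.Quotient.smul_coe, QuotientGroup.eq, smul_eq_mul, mul_inv_rev, inv_inv] at e5
    obtain ⟨k, hk⟩ := e5
    have k1 : π k = b.1⁻¹ * bh.1 * b.1 := congrArg Prod.fst hk
    have k2 : q i k = b.2⁻¹ * bh.2 * b.2 := congrArg Prod.snd hk
    rw [hb1, ← hh0', ← map_inv, ← map_mul, ← map_mul] at k1
    have k3 := hqq i k (h0⁻¹ * h * h0) (by
      rw [k1]
      rfl)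
    rw [k2, map_mul, map_mul, map_inv] at k3
    have k0 : ((MonoidHom.snd A Q).comp γ.hom) h = bh.2 := by
      rw [hbh]
      rfl
    rw [k0]
    have k4 : bh.2 = b.2 * ((q i h0)⁻¹ * q i h * q i h0) * b.2⁻¹ := by
      rw [← k3]
      group
    rw [k4]
    group

end Pile

end Pool.Agent.R630.PL
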